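import Mathlib

/-!
# Lemma C (MP_ea8a26, S7): a combinatorial inequality for four interlacing sequences

`c`, `d` interlace, `d m * a (m+1) ≤ c m * b (m+1)` and `d (m-1) * a (m+1) ≤ c m * b m`.  Then the coefficients `κ s` of `c b - d a` satisfy
`d x * κ s ≥ d s * κ x` for `x < s`.
Sequences are functions on `ℤ`, zero at negative places.
-/

set_option autoImplicit false

namespace LemC

open Finset

/-- `c` and `d` interlace -/
structure IL (c d : ℤ → ℝ) : Prop where
  c0 : ∀ i, 0 ≤ c i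
  d0 : ∀ i, 0 ≤ d i
  cn : ∀ i, i < 0 → c i = 0
  dn : ∀ i, i < 0 → d i = 0
  cp : 0 < c 0
  dp : 0 < d 0
  cz : ∀ i, 0 ≤ i → c i = 0 → c (i + 1) = 0
  dz : ∀ i, 0 ≤ i → d i = 0 → d (i + 1) = 0
  il1 : ∀ i, 0 ≤ i → c i * d (i + 1) ≤ c (i + 1) * d i
  il2 : ∀ i, 1 ≤ i → c (i + 1) * d (i - 1) ≤ c i * d i

variable {c d : ℤ → ℝ}

theorem IL.il1' (h : IL c d) (i : ℤ) : c i * d (i + 1) ≤ c (i + 1) * d i := by
  rcases lt_or_ge i 0 with hi | hi
  · rw [h.cn i hi, h.dn i hi]; simp
  · exact h.il1 i hi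

theorem IL.il2' (h : IL c d) (i : ℤ) : c (i + 1) * d (i - 1) ≤ c i * d i := by
  rcases lt_or_ge i 1 with hi | hi
  · rw [h.dn (i - 1) (by omega), mul_zero]
    exact mul_nonneg (h.c0 _) (h.d0 _)
  · exact h.il2 i hi

/-- zeros of `d` propagate upwards -/
theorem IL.dz' (h : IL c d) {i j : ℤ} (hi : 0 ≤ i) (hij : i ≤ j) (hd : d i = 0) : d j = 0 := by
  induction j, hij using Int.le_induction with
  | base => exact hd
  | succ n hn ih => exact h.dz n (by omega) ih

theorem IL.cz' (h : IL c d) {i j : ℤ} (hi : 0 ≤ i) (hij : i ≤ j) (hc : c i = 0) : c j = 0 := by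
  induction j, hij using Int.le_induction with
  | base => exact hc
  | succ n hn ih => exact h.cz n (by omega) ih

theorem IL.dpos (h : IL c d) {i j : ℤ} (hi : 0 ≤ i) (hij : i ≤ j) (hd : 0 < d j) : 0 < d i := by
  rcases (h.d0 i).lt_or_eq with h1 | h1
  · exact h1
  · rw [h.dz' hi hij h1.symm] at hd
    exact absurd hd (lt_irrefl _)

/-- `c j * d i ≤ d j * c i` for `j ≤ i` -/
theorem IL.cd (h : IL c d) {j i : ℤ} (hji : j ≤ i) : c j * d i ≤ d j * c i := by
  rcases lt_or_ge j 0 with hj | hj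
  · rw [h.cn j hj, zero_mul]
    exact mul_nonneg (h.d0 _) (h.c0 _)
  · induction i, hji using Int.le_induction with
    | base => rw [mul_comm]
    | succ n hn ih =>
      rcases (h.d0 n).lt_or_eq with h1 | h1
      · have h2 := h.il1' n
        have h3 : d n * (c j * d (n + 1)) ≤ d n * (d j * c (n + 1)) := by
          calc d n * (c j * d (n + 1)) = (c j * d n) * d (n + 1) := by ring
            _ ≤ (d j * c n) * d (n + 1) := mul_le_mul_of_nonneg_right ih (h.d0 _)
            _ = d j * (c n * d (n + 1)) := by ring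
            _ ≤ d j * (c (n + 1) * d n) := mul_le_mul_of_nonneg_left h2 (h.d0 _)
            _ = d n * (d j * c (n + 1)) := by ring
        exact le_of_mul_le_mul_left h3 h1
      · rw [h.dz n (by omega) h1.symm, mul_zero]
        exact mul_nonneg (h.d0 _) (h.c0 _)

theorem IL.cpos (h : IL c d) {i : ℤ} (hi : 0 ≤ i) (hd : 0 < d i) : 0 < c i := by
  have h1 := h.cd hi
  have h2 : 0 < c 0 * d i := mul_pos h.cp hd
  have h3 : 0 < d 0 * c i := lt_of_lt_of_le h2 h1
  exact (pos_iff_pos_of_mul_pos h3).1 h.dp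

/-- the degree of `c` is at most the degree of `d` plus one -/
theorem IL.dc (h : IL c d) {k : ℤ} (hk : 0 ≤ k) (hd : d k = 0) : c (k + 1) = 0 := by
  induction k, hk using Int.le_induction with
  | base => exact absurd hd h.dp.ne'
  | succ n hn ih =>
    rcases (h.d0 n).lt_or_eq with h1 | h1
    · have h2 := h.il2' (n + 1)
      rw [hd, mul_zero, add_sub_cancel_right] at h2
      have h3 : 0 ≤ c (n + 1 + 1) := h.c0 _
      nlinarith
    · exact h.cz _ (by omega) (ih h1.symm)

/-- `c j * d i ≤ d (j - 1) * c (i + 1)` for `i < j` -/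
theorem IL.cd2 (h : IL c d) {i j : ℤ} (hij : i + 1 ≤ j) : c j * d i ≤ d (j - 1) * c (i + 1) := by
  rcases lt_or_ge i 0 with hi | hi
  · rw [h.dn i hi, mul_zero]
    exact mul_nonneg (h.d0 _) (h.c0 _)
  · induction j, hij using Int.le_induction with
    | base =>
      rw [add_sub_cancel_right, mul_comm]
    | succ n hn ih =>
      have h2 := h.il2' n
      rw [add_sub_cancel_right]
      rcases (h.d0 (n - 1)).lt_or_eq with h1 | h1
      · have h3 : d (n - 1) * (c (n + 1) * d i) ≤ d (n - 1) * (d n * c (i + 1)) := by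
          calc d (n - 1) * (c (n + 1) * d i) = (c (n + 1) * d (n - 1)) * d i := by ring
            _ ≤ (c n * d n) * d i := mul_le_mul_of_nonneg_right h2 (h.d0 _)
            _ = d n * (c n * d i) := by ring
            _ ≤ d n * (d (n - 1) * c (i + 1)) := mul_le_mul_of_nonneg_left ih (h.d0 _)
            _ = d (n - 1) * (d n * c (i + 1)) := by ring
        exact le_of_mul_le_mul_left h3 h1
      · have h4 : c (n - 1 + 1) = 0 := h.dc (by omega) h1.symm
        have h5 : c (n + 1) = 0 := by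
          apply h.cz _ (by omega)
          rw [← h4]
          congr 1
          ring
        rw [h5, zero_mul]
        exact mul_nonneg (h.d0 _) (h.c0 _)

/-- `d` is log-concave -/
theorem IL.lc (h : IL c d) (k : ℤ) : d (k + 1) * d (k - 1) ≤ d k * d k := by
  rcases lt_or_ge k 0 with hk | hk
  · rw [h.dn (k - 1) (by omega), mul_zero]
    exact mul_nonneg (h.d0 _) (h.d0 _)
  rcases (h.d0 k).lt_or_eq with h1 | h1
  · have hc := h.cpos hk h1
    have h2 := h.il1' k
    have h3 := h.il2' k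
    have h4 : c k * (d (k + 1) * d (k - 1)) ≤ c k * (d k * d k) := by
      calc c k * (d (k + 1) * d (k - 1)) = (c k * d (k + 1)) * d (k - 1) := by ring
        _ ≤ (c (k + 1) * d k) * d (k - 1) := mul_le_mul_of_nonneg_right h2 (h.d0 _)
        _ = d k * (c (k + 1) * d (k - 1)) := by ring
        _ ≤ d k * (c k * d k) := mul_le_mul_of_nonneg_left h3 (h.d0 _)
        _ = c k * (d k * d k) := by ring
    exact le_of_mul_le_mul_left h4 hc
  · rw [h.dz k hk h1.symm, zero_mul]
    exact mul_nonneg (h.d0 _) (h.d0 _)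

theorem IL.lc' (h : IL c d) {i k : ℤ} (hik : i ≤ k) : d (k + 1) * d (i - 1) ≤ d k * d i := by
  rcases lt_or_ge (i - 1) 0 with hi | hi
  · rw [h.dn (i - 1) hi, mul_zero]
    exact mul_nonneg (h.d0 _) (h.d0 _)
  induction k, hik using Int.le_induction with
  | base => exact h.lc i
  | succ n hn ih =>
    have h2 := h.lc (n + 1)
    rw [add_sub_cancel_right] at h2
    rcases (h.d0 n).lt_or_eq with h1 | h1
    · have h3 : d n * (d (n + 1 + 1) * d (i - 1)) ≤ d n * (d (n + 1) * d i) := by
        calc d n * (d (n + 1 + 1) * d (i - 1)) = (d (n + 1 + 1) * d n) * d (i - 1) := by ring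
          _ ≤ (d (n + 1) * d (n + 1)) * d (i - 1) := mul_le_mul_of_nonneg_right h2 (h.d0 _)
          _ = d (n + 1) * (d (n + 1) * d (i - 1)) := by ring
          _ ≤ d (n + 1) * (d n * d i) := mul_le_mul_of_nonneg_left ih (h.d0 _)
          _ = d n * (d (n + 1) * d i) := by ring
      exact le_of_mul_le_mul_left h3 h1
    · rw [h.dz _ (by omega) (h.dz n (by omega) h1.symm), zero_mul]
      exact mul_nonneg (h.d0 _) (h.d0 _)

/-! ### The truncated sequences -/

/-- `C i = d (s-1) c i - d s c (i-1)` -/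
def CC (c d : ℤ → ℝ) (s i : ℤ) : ℝ := d (s - 1) * c i - d s * c (i - 1)

/-- `D i = d (s-1) d i - d s d (i-1)` -/
def DD (d : ℤ → ℝ) (s i : ℤ) : ℝ := d (s - 1) * d i - d s * d (i - 1)

theorem IL.DD0 (h : IL c d) {s i : ℤ} (hi : i ≤ s - 1) : 0 ≤ DD d s i := by
  have h1 := h.lc' hi
  rw [sub_add_cancel] at h1
  unfold DD
  linarith

theorem DDs (s : ℤ) : DD d s s = 0 := by
  unfold DD
  ring

theorem IL.CC0 (h : IL c d) {s i : ℤ} (hi : i ≤ s) (hs : 0 < d (s - 1)) : 0 ≤ CC c d s i := by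
  unfold CC
  rcases lt_or_ge (i - 1) 0 with h0 | h0
  · rw [h.cn (i - 1) h0, mul_zero, sub_zero]
    exact mul_nonneg (h.d0 _) (h.c0 _)
  have hd : 0 < d (i - 1) := h.dpos h0 (by omega) hs
  have h1 := h.il1' (i - 1)
  rw [sub_add_cancel] at h1
  rcases eq_or_lt_of_le hi with h2 | h2
  · subst h2
    linarith [mul_comm (c (i - 1)) (d i), mul_comm (c i) (d (i - 1))]
  · have h3 := h.DD0 (s := s) (i := i) (by omega)
    unfold DD at h3
    have h4 : d (i - 1) * (d s * c (i - 1)) ≤ d (i - 1) * (d (s - 1) * c i) := by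
      calc d (i - 1) * (d s * c (i - 1)) = (d s * d (i - 1)) * c (i - 1) := by ring
        _ ≤ (d (s - 1) * d i) * c (i - 1) := mul_le_mul_of_nonneg_right (by linarith) (h.c0 _)
        _ = d (s - 1) * (c (i - 1) * d i) := by ring
        _ ≤ d (s - 1) * (c i * d (i - 1)) := mul_le_mul_of_nonneg_left h1 (h.d0 _)
        _ = d (i - 1) * (d (s - 1) * c i) := by ring
    linarith [le_of_mul_le_mul_left h4 hd]

/-- `X j = d j C (s-1-j) - c j D (s-1-j)` -/
def XX (c d : ℤ → ℝ) (s j : ℤ) : ℝ := d j * CC c d s (s - 1 - j) - c j * DD d s (s - 1 - j)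

theorem IL.XX0 (h : IL c d) {s j : ℤ} (hs : 0 < d (s - 1)) (hj : j ≤ s - 1 - j) :
    0 ≤ XX c d s j := by
  unfold XX
  rcases lt_or_ge j 0 with h0 | h0
  · rw [h.cn j h0, h.dn j h0]; simp
  set i := s - 1 - j with hi
  rcases eq_or_lt_of_le hj with h1 | h1
  · rw [← h1]
    unfold CC DD
    have h2 := h.cd (show j - 1 ≤ j by omega)
    have h3 := mul_le_mul_of_nonneg_left h2 (h.d0 s)
    nlinarith
  · have hd : 0 < d (i - 1) := h.dpos (by omega) (by omega) hs
    have h2 := h.DD0 (s := s) (i := i) (by omega)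
    have h3 := h.cd (show j ≤ i - 1 by omega)
    have h4 := h.il1' (i - 1)
    rw [sub_add_cancel] at h4
    have h5 : 0 ≤ d (i - 1) * (d j * CC c d s i - c j * DD d s i) := by
      have h6 : d (i - 1) * (d j * CC c d s i - c j * DD d s i)
          = d (s - 1) * d j * (c i * d (i - 1) - c (i - 1) * d i)
            + DD d s i * (d j * c (i - 1) - c j * d (i - 1)) := by
        unfold CC DD
        ring
      rw [h6]
      have h7 : 0 ≤ d (s - 1) * d j * (c i * d (i - 1) - c (i - 1) * d i) :=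
        mul_nonneg (mul_nonneg hs.le (h.d0 _)) (by linarith)
      have h8 : 0 ≤ DD d s i * (d j * c (i - 1) - c j * d (i - 1)) :=
        mul_nonneg h2 (by linarith)
      linarith
    exact nonneg_of_mul_nonneg_right h5 hd

/-- `D j c i ≥ C (j+1) d (i-1)`, `i = s-1-j ≤ j+1` -/
theorem IL.ZZ (h : IL c d) {s j : ℤ} (hs : 0 < d (s - 1)) (hj : s - 1 - j ≤ j + 1) (hj2 : j ≤ s - 1)
    (hs0 : 1 ≤ s) :
    0 ≤ DD d s j * c (s - 1 - j) - CC c d s (j + 1) * d (s - 2 - j) := by
  set i := s - 1 - j with hi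
  have e1 : s - 2 - j = i - 1 := by omega
  rw [e1]
  rcases eq_or_lt_of_le hj with h1 | h1
  · have e2 : i - 1 = j := by omega
    have h2 := h.il2' j
    have h3 : DD d s j * c i - CC c d s (j + 1) * d (i - 1)
        = d s * (c j * d j - c (j + 1) * d (j - 1)) := by
      rw [e2, h1]
      unfold DD CC
      rw [add_sub_cancel_right]
      ring
    rw [h3]
    exact mul_nonneg (h.d0 _) (by linarith)
  · have hj0 : 0 ≤ j := by omega
    have hc : 0 < c j := h.cpos hj0 (h.dpos hj0 hj2 hs)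
    have h2 := h.il2' j
    have h3 := h.cd2 (show i - 1 + 1 ≤ j by omega)
    rw [sub_add_cancel] at h3
    have h4 := h.CC0 (s := s) (i := j + 1) (by omega) hs
    have h5 : 0 ≤ c j * (DD d s j * c i - CC c d s (j + 1) * d (i - 1)) := by
      have h6 : c j * (DD d s j * c i - CC c d s (j + 1) * d (i - 1))
          = d (s - 1) * c i * (c j * d j - c (j + 1) * d (j - 1))
            + CC c d s (j + 1) * (d (j - 1) * c i - c j * d (i - 1)) := by
        unfold CC DD
        rw [add_sub_cancel_right]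
        ring
      rw [h6]
      have h7 : 0 ≤ d (s - 1) * c i * (c j * d j - c (j + 1) * d (j - 1)) :=
        mul_nonneg (mul_nonneg hs.le (h.c0 _)) (by linarith)
      have h8 : 0 ≤ CC c d s (j + 1) * (d (j - 1) * c i - c j * d (i - 1)) :=
        mul_nonneg h4 (by linarith)
      linarith
    exact nonneg_of_mul_nonneg_right h5 hc

/-! ### Blocks -/

theorem sum_refl (F : ℤ → ℝ) (p q : ℤ) :
    ∑ j ∈ Ico p q, F (p + q - 1 - j) = ∑ j ∈ Ico p q, F j := by
  refine Finset.sum_nbij' (fun j => p + q - 1 - j) (fun j => p + q - 1 - j) ?_ ?_ ?_ ?_ ?_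
  · intro j hj
    simp only [Finset.mem_Ico] at hj ⊢
    omega
  · intro j hj
    simp only [Finset.mem_Ico] at hj ⊢
    omega
  · intro j _
    ring
  · intro j _
    ring
  · intro j _
    rfl

/-- the symmetric sum -/
theorem sum_XX (c d : ℤ → ℝ) (s u : ℤ) (hu : u ≤ s - 1 - u) :
    ∑ j ∈ Ico u (s - u), XX c d s j
      = d s * (c (s - 1 - u) * d (u - 1) - d (s - 1 - u) * c (u - 1)) := by
  have h1 : ∑ j ∈ Ico u (s - u), d j * c (s - 1 - j) = ∑ j ∈ Ico u (s - u), c j * d (s - 1 - j) := by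
    rw [← sum_refl (fun j => c j * d (s - 1 - j))]
    apply Finset.sum_congr rfl
    intro j _
    have e1 : u + (s - u) - 1 - j = s - 1 - j := by ring
    simp only [e1]
    rw [show s - 1 - (s - 1 - j) = j by ring]
    ring
  have h2 : ∑ j ∈ Ico u (s - 1 - u), d j * c (s - 2 - j)
      = ∑ j ∈ Ico u (s - 1 - u), c j * d (s - 2 - j) := by
    rw [← sum_refl (fun j => c j * d (s - 2 - j))]
    apply Finset.sum_congr rfl
    intro j _
    have e1 : u + (s - 1 - u) - 1 - j = s - 2 - j := by ring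
    simp only [e1]
    rw [show s - 2 - (s - 2 - j) = j by ring]
    ring
  have h3 : Ico u (s - u) = insert (s - 1 - u) (Ico u (s - 1 - u)) := by
    ext j
    simp only [Finset.mem_Ico, Finset.mem_insert]
    omega
  have h4 : ∀ F : ℤ → ℝ, ∑ j ∈ Ico u (s - u), F j = F (s - 1 - u) + ∑ j ∈ Ico u (s - 1 - u), F j := by
    intro F
    rw [h3, Finset.sum_insert (by simp)]
  have h5 : ∀ j, XX c d s j = d (s - 1) * (d j * c (s - 1 - j) - c j * d (s - 1 - j))
      - d s * (d j * c (s - 2 - j) - c j * d (s - 2 - j)) := by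
    intro j
    unfold XX CC DD
    rw [show s - 1 - j - 1 = s - 2 - j by ring]
    ring
  simp only [h5]
  rw [Finset.sum_sub_distrib, ← Finset.mul_sum, ← Finset.mul_sum, Finset.sum_sub_distrib, h1, sub_self,
    mul_zero, zero_sub, h4 (fun j => d j * c (s - 2 - j) - c j * d (s - 2 - j)),
    Finset.sum_sub_distrib, h2, sub_self, add_zero]
  rw [show s - 2 - (s - 1 - u) = u - 1 by ring]
  ring

/-- the block sum -/
noncomputable def BB (c d : ℤ → ℝ) (s u v : ℤ) : ℝ := d (u - 1) * CC c d s (s - u) + ∑ j ∈ Ico u v, XX c d s j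

/-- upper blocks, Abel summation -/
theorem IL.upper (h : IL c d) {s u V : ℤ} (hs : 0 < d (s - 1)) (hs0 : 1 ≤ s) (hu : s - u ≤ u)
    (huV : u ≤ V) (hV : V ≤ s - 1) :
    d (s - 1) * (d (u - 1) * c (s - u) - c u * d (s - 1 - u))
      + d s * (c V * d (s - 2 - V) - d V * c (s - 2 - V)) + DD d s V * c (s - 1 - V)
      ≤ BB c d s u (V + 1) := by
  induction V, huV using Int.le_induction with
  | base =>
    unfold BB XX CC DD
    have e : Ico u (u + 1) = {u} := by
      ext j
      simp only [Finset.mem_Ico, Finset.mem_singleton]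
      omega
    rw [e, Finset.sum_singleton, show s - 1 - u - 1 = s - 2 - u by ring,
      show s - u - 1 = s - 1 - u by ring]
    apply le_of_eq
    ring
  | succ n hn ih =>
    have h1 := ih (by omega)
    have h2 := h.ZZ hs (show s - 1 - n ≤ n + 1 by omega) (by omega) hs0
    have e : Ico u (n + 1 + 1) = insert (n + 1) (Ico u (n + 1)) := by
      ext j
      simp only [Finset.mem_Ico, Finset.mem_insert]
      omega
    have e2 : BB c d s u (n + 1 + 1) = BB c d s u (n + 1) + XX c d s (n + 1) := by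
      unfold BB
      rw [e, Finset.sum_insert (by simp)]
      ring
    rw [e2]
    have h3 : XX c d s (n + 1) = d s * (c (n + 1) * d (s - 2 - (n + 1)) - d (n + 1) * c (s - 2 - (n + 1)))
        + DD d s (n + 1) * c (s - 1 - (n + 1))
        - (d s * (c n * d (s - 2 - n) - d n * c (s - 2 - n)) + DD d s n * c (s - 1 - n))
        + (DD d s n * c (s - 1 - n) - CC c d s (n + 1) * d (s - 2 - n)) := by
      unfold XX CC DD
      rw [show s - 1 - (n + 1) - 1 = s - 2 - (n + 1) by ring, show s - 1 - (n + 1) = s - 2 - n by ring,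
        add_sub_cancel_right]
      ring
    linarith

theorem IL.upper0 (h : IL c d) {s u v : ℤ} (hs : 0 < d (s - 1)) (hs0 : 1 ≤ s) (hu : s - u ≤ u)
    (huV : u < v) (hV : v ≤ s) :
    d (s - 1) * (d (u - 1) * c (s - u) - c u * d (s - 1 - u)) ≤ BB c d s u v := by
  have h1 := h.upper (V := v - 1) hs hs0 hu (by omega) (by omega)
  rw [sub_add_cancel] at h1
  have h2 : 0 ≤ c (v - 1) * d (s - 2 - (v - 1)) - d (v - 1) * c (s - 2 - (v - 1)) := by
    have h3 := h.cd (show s - 2 - (v - 1) ≤ v - 1 by omega)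
    linarith [mul_comm (c (v - 1)) (d (s - 2 - (v - 1))), mul_comm (d (v - 1)) (c (s - 2 - (v - 1)))]
  have h3 : 0 ≤ DD d s (v - 1) * c (s - 1 - (v - 1)) :=
    mul_nonneg (h.DD0 (by omega)) (h.c0 _)
  have h4 := mul_nonneg (h.d0 s) h2
  linarith

theorem IL.block (h : IL c d) {s u v : ℤ} (hs : 0 < d (s - 1)) (hs0 : 1 ≤ s) (hu0 : 0 ≤ u)
    (huv : u ≤ v) (hv : v ≤ s) : 0 ≤ BB c d s u v := by
  have hP : 0 ≤ d (u - 1) * CC c d s (s - u) := mul_nonneg (h.d0 _) (h.CC0 (by omega) hs)
  rcases eq_or_lt_of_le huv with h1 | h1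
  · subst h1
    unfold BB
    simpa using hP
  -- `V = v - 1`
  rcases le_or_gt (2 * (v - 1)) (s - 1) with h2 | h2
  · unfold BB
    have h3 : 0 ≤ ∑ j ∈ Ico u v, XX c d s j := by
      apply Finset.sum_nonneg
      intro j hj
      simp only [Finset.mem_Ico] at hj
      exact h.XX0 hs (by omega)
    linarith
  rcases le_or_gt u (s - v) with h3 | h3
  · -- `u ≤ u* = s - v`
    have e : Ico u v = Ico u (s - v) ∪ Ico (s - v) v := by
      ext j
      simp only [Finset.mem_Ico, Finset.mem_union]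
      omega
    have hdis : Disjoint (Ico u (s - v)) (Ico (s - v) v) := by
      rw [Finset.disjoint_left]
      intro j hj
      simp only [Finset.mem_Ico] at hj ⊢
      omega
    have h4 : 0 ≤ ∑ j ∈ Ico u (s - v), XX c d s j := by
      apply Finset.sum_nonneg
      intro j hj
      simp only [Finset.mem_Ico] at hj
      exact h.XX0 hs (by omega)
    have h5 := sum_XX c d s (s - v) (by omega)
    rw [show s - (s - v) = v by ring, show s - 1 - (s - v) = v - 1 by ring] at h5
    have h6 := h.cd (show s - v - 1 ≤ v - 1 by omega)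
    have h7 : 0 ≤ d s * (c (v - 1) * d (s - v - 1) - d (v - 1) * c (s - v - 1)) := by
      apply mul_nonneg (h.d0 _)
      linarith [mul_comm (c (v - 1)) (d (s - v - 1)), mul_comm (d (v - 1)) (c (s - v - 1))]
    unfold BB
    rw [e, Finset.sum_union hdis, h5]
    linarith
  rcases le_or_gt (s - u) u with h4 | h4
  · have h5 := h.upper0 hs hs0 h4 h1 hv
    have h6 := h.cd2 (show s - 1 - u + 1 ≤ u by omega)
    rw [show s - 1 - u + 1 = s - u by ring] at h6
    have h7 : 0 ≤ d (s - 1) * (d (u - 1) * c (s - u) - c u * d (s - 1 - u)) :=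
      mul_nonneg hs.le (by linarith)
    linarith
  · -- `u ≤ U = s - 1 - u < V`
    have e : Ico u v = Ico u (s - u) ∪ Ico (s - u) v := by
      ext j
      simp only [Finset.mem_Ico, Finset.mem_union]
      omega
    have hdis : Disjoint (Ico u (s - u)) (Ico (s - u) v) := by
      rw [Finset.disjoint_left]
      intro j hj
      simp only [Finset.mem_Ico] at hj ⊢
      omega
    have h5 := sum_XX c d s u (by omega)
    have h6 := h.upper0 (u := s - u) (v := v) hs hs0 (by omega) (by omega) hv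
    rw [show s - (s - u) = u by ring, show s - 1 - (s - u) = u - 1 by ring] at h6
    unfold BB at h6 ⊢
    rw [show s - (s - u) = u by ring] at h6
    rw [e, Finset.sum_union hdis, h5]
    unfold CC at h6 ⊢
    rw [show s - u - 1 = s - 1 - u by ring] at h6 ⊢
    nlinarith

/-! ### Transport -/

/-- the partial sums of `XX` -/
noncomputable def TT (c d : ℤ → ℝ) (s n : ℤ) : ℝ := ∑ j ∈ Ico 0 n, XX c d s j

theorem TT_zero (c d : ℤ → ℝ) (s : ℤ) : TT c d s 0 = 0 := by
  unfold TT
  simp

theorem TT_succ (c d : ℤ → ℝ) (s : ℤ) {n : ℤ} (hn : 0 ≤ n) :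
    TT c d s (n + 1) = TT c d s n + XX c d s n := by
  unfold TT
  have e : Ico 0 (n + 1) = insert n (Ico 0 n) := by
    ext j
    simp only [Finset.mem_Ico, Finset.mem_insert]
    omega
  rw [e, Finset.sum_insert (by simp)]
  ring

theorem IL.TT0 (h : IL c d) {s n : ℤ} (hs : 0 < d (s - 1)) (hs0 : 1 ≤ s) (hn : 0 ≤ n)
    (hns : n ≤ s) : 0 ≤ TT c d s n := by
  have h1 := h.block hs hs0 (le_refl 0) hn hns
  unfold BB at h1
  rw [h.dn (0 - 1) (by norm_num), zero_mul, zero_add] at h1
  exact h1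

theorem IL.TTs (h : IL c d) {s : ℤ} (hs0 : 1 ≤ s) : TT c d s s = 0 := by
  have h1 := sum_XX c d s 0 (by omega)
  rw [sub_zero, h.dn (0 - 1) (by norm_num), h.cn (0 - 1) (by norm_num)] at h1
  unfold TT
  rw [h1]
  ring

theorem IL.TT1 (h : IL c d) {s n : ℤ} (hs : 0 < d (s - 1)) (hs0 : 1 ≤ s) (hn : 0 ≤ n)
    (hns : n + 1 ≤ s) : TT c d s n ≤ c n * DD d s (s - 1 - n) := by
  have h1 := h.block hs hs0 (show 0 ≤ n + 1 by omega) hns le_rfl
  have h2 := h.TTs hs0
  have h3 : TT c d s s = TT c d s (n + 1) + ∑ j ∈ Ico (n + 1) s, XX c d s j := by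
    unfold TT
    rw [← Finset.sum_union]
    · congr 1
      ext j
      simp only [Finset.mem_Ico, Finset.mem_union]
      omega
    · rw [Finset.disjoint_left]
      intro j hj
      simp only [Finset.mem_Ico] at hj ⊢
      omega
  have h4 := TT_succ c d s hn
  have h5 : XX c d s n = d n * CC c d s (s - 1 - n) - c n * DD d s (s - 1 - n) := rfl
  unfold BB at h1
  rw [add_sub_cancel_right, show s - (n + 1) = s - 1 - n by ring] at h1
  linarith

theorem IL.transport (h : IL c d) {s : ℕ} (hs : 0 < d ((s : ℤ) - 1)) (hs0 : 1 ≤ s) {a b : ℕ → ℝ}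
    (l1 : ∀ m : ℕ, d m * a (m + 1) ≤ c m * b (m + 1))
    (l3 : ∀ m : ℕ, d m * a (m + 2) ≤ c (m + 1) * b (m + 1)) (n : ℕ) (hn : n ≤ s) :
    ∑ j ∈ range n, a (j + 1) * DD d s (s - 1 - j)
      ≤ ∑ j ∈ range n, b (j + 1) * CC c d s (s - 1 - j) - b n / d ((n : ℤ) - 1) * TT c d s n := by
  induction n with
  | zero => simp [TT_zero]
  | succ n ih =>
    have ih1 := ih (by omega)
    rw [Finset.sum_range_succ, Finset.sum_range_succ]
    have hdn : 0 < d (n : ℤ) := h.dpos (by omega) (by omega) hs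
    have hcn : 0 < c (n : ℤ) := h.cpos (by omega) hdn
    have hs1 : (1 : ℤ) ≤ s := by exact_mod_cast hs0
    have hT0 := h.TT0 (s := s) (n := n) hs hs1 (by omega) (by omega)
    have hT1 := h.TT1 (s := s) (n := n) hs hs1 (by omega) (by omega)
    have hTs := TT_succ c d s (n := n) (by omega)
    have e1 : ((n + 1 : ℕ) : ℤ) - 1 = n := by push_cast; ring
    have e2 : ((n + 1 : ℕ) : ℤ) = n + 1 := by push_cast; ring
    rw [e1, e2]
    set Q := c (n : ℤ) * DD d s (s - 1 - n) with hQ
    set T := TT c d s n with hT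
    set g := b (n + 1) / d (n : ℤ) with hg
    have hg1 : g * d (n : ℤ) = b (n + 1) := div_mul_cancel₀ _ hdn.ne'
    have hX : XX c d s n = d n * CC c d s (s - 1 - n) - Q := rfl
    -- `a (n+1) ≤ c n * g`
    have k1 : a (n + 1) ≤ c n * g := by
      have := l1 n
      rw [← hg1] at this
      have h6 : d (n : ℤ) * a (n + 1) ≤ d (n : ℤ) * (c n * g) := by
        calc d (n : ℤ) * a (n + 1) ≤ c n * (g * d n) := this
          _ = d (n : ℤ) * (c n * g) := by ring
      exact le_of_mul_le_mul_left h6 hdn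
    have k2 : a (n + 1) * T ≤ c n * (b n / d ((n : ℤ) - 1)) * T := by
      rcases Nat.eq_zero_or_pos n with h0 | h0
      · subst h0
        rw [hT]
        simp [TT_zero]
      · obtain ⟨m, rfl⟩ : ∃ m, n = m + 1 := ⟨n - 1, by omega⟩
        have e3 : ((m + 1 : ℕ) : ℤ) - 1 = m := by push_cast; ring
        have hdm : 0 < d (m : ℤ) := h.dpos (by omega) (by omega) hs
        rw [e3]
        apply mul_le_mul_of_nonneg_right _ hT0
        have := l3 m
        have h6 : d (m : ℤ) * a (m + 1 + 1) ≤ d (m : ℤ) * (c ((m + 1 : ℕ) : ℤ) * (b (m + 1) / d (m : ℤ))) := by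
          calc d (m : ℤ) * a (m + 1 + 1) ≤ c (m + 1) * b (m + 1) := this
            _ = c (m + 1) * (b (m + 1) / d (m : ℤ) * d (m : ℤ)) := by rw [div_mul_cancel₀ _ hdm.ne']
            _ = d (m : ℤ) * (c ((m + 1 : ℕ) : ℤ) * (b (m + 1) / d (m : ℤ))) := by
              push_cast
              ring
        exact le_of_mul_le_mul_left h6 hdm
    have k3 : a (n + 1) * DD d s (s - 1 - n) ≤ g * (Q - T) + b n / d ((n : ℤ) - 1) * T := by
      have h6 : c (n : ℤ) * (a (n + 1) * DD d s (s - 1 - n))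
          ≤ c (n : ℤ) * (g * (Q - T) + b n / d ((n : ℤ) - 1) * T) := by
        calc c (n : ℤ) * (a (n + 1) * DD d s (s - 1 - n)) = a (n + 1) * (Q - T) + a (n + 1) * T := by
              rw [hQ]
              ring
          _ ≤ c n * g * (Q - T) + c n * (b n / d ((n : ℤ) - 1)) * T :=
            add_le_add (mul_le_mul_of_nonneg_right k1 (by linarith)) k2
          _ = c (n : ℤ) * (g * (Q - T) + b n / d ((n : ℤ) - 1) * T) := by ring
      exact le_of_mul_le_mul_left h6 hcn
    have k4 : g * (Q - T) = b (n + 1) * CC c d s (s - 1 - n) - g * TT c d s (n + 1) := by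
      rw [hTs, hX, ← hg1]
      ring
    linarith

/-- one step of Lemma C on `ℤ`-indexed `c`, `d` -/
theorem IL.step (h : IL c d) {s : ℕ} {a b : ℕ → ℝ} (hb : ∀ m, 0 ≤ b m)
    (l1 : ∀ m : ℕ, d m * a (m + 1) ≤ c m * b (m + 1))
    (l3 : ∀ m : ℕ, d m * a (m + 2) ≤ c (m + 1) * b (m + 1)) :
    d (s + 1) * ∑ z ∈ range (s + 1), (b z * c (s - z) - a z * d (s - z))
      ≤ d s * ∑ z ∈ range (s + 2), (b z * c (s + 1 - z) - a z * d (s + 1 - z)) := by
  rcases (h.d0 s).lt_or_eq with h1 | h1
  · have e1 : ((s + 1 : ℕ) : ℤ) - 1 = s := by push_cast; ring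
    have e2 : ((s + 1 : ℕ) : ℤ) = s + 1 := by push_cast; ring
    have h2 := h.transport (s := s + 1) (by rw [e1]; exact h1) (by omega) l1 l3 (s + 1) le_rfl
    rw [e2, h.TTs (by omega), mul_zero, sub_zero] at h2
    -- extend the first sum
    have h3 : ∑ z ∈ range (s + 1), (b z * c (s - z) - a z * d (s - z))
        = ∑ z ∈ range (s + 2), (b z * c (s - z) - a z * d (s - z)) := by
      rw [Finset.sum_range_succ _ (s + 1), h.cn _ (by push_cast; omega), h.dn _ (by push_cast; omega)]
      ring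
    have h4 : d s * ∑ z ∈ range (s + 2), (b z * c (s + 1 - z) - a z * d (s + 1 - z))
        - d (s + 1) * ∑ z ∈ range (s + 1), (b z * c (s - z) - a z * d (s - z))
        = ∑ z ∈ range (s + 2), (b z * CC c d (s + 1) (s + 1 - z) - a z * DD d (s + 1) (s + 1 - z)) := by
      rw [h3, Finset.mul_sum, Finset.mul_sum, ← Finset.sum_sub_distrib]
      apply Finset.sum_congr rfl
      intro z _
      unfold CC DD
      rw [show (s : ℤ) + 1 - 1 = s by ring, show (s : ℤ) + 1 - z - 1 = s - z by ring]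
      ring
    have h5 : ∑ z ∈ range (s + 2), (b z * CC c d (s + 1) (s + 1 - z) - a z * DD d (s + 1) (s + 1 - z))
        = (∑ j ∈ range (s + 1), b (j + 1) * CC c d (s + 1) (s + 1 - 1 - j)
          - ∑ j ∈ range (s + 1), a (j + 1) * DD d (s + 1) (s + 1 - 1 - j))
          + b 0 * CC c d (s + 1) (s + 1) := by
      rw [Finset.sum_range_succ', ← Finset.sum_sub_distrib]
      have e3 : DD d (s + 1) (s + 1 - ((0 : ℕ) : ℤ)) = 0 := by
        push_cast
        rw [sub_zero]
        exact DDs _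
      rw [e3]
      congr 1
      · apply Finset.sum_congr rfl
        intro z _
        have e4 : (s : ℤ) + 1 - ((z + 1 : ℕ) : ℤ) = s + 1 - 1 - z := by push_cast; ring
        rw [e4]
      · push_cast
        rw [sub_zero]
        ring
    have h6 : 0 ≤ b 0 * CC c d (s + 1) (s + 1) :=
      mul_nonneg (hb 0) (h.CC0 le_rfl (by rw [show (s : ℤ) + 1 - 1 = s by ring]; exact h1))
    linarith
  · have h2 : d ((s : ℤ) + 1) = 0 := h.dz _ (by omega) h1.symm
    rw [h2, ← h1]
    simp

/-! ### Nonnegativity of the coefficients (the case `ρ = 0`) -/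

/-- the partial sums for `ρ = 0` -/
noncomputable def SS (c d : ℤ → ℝ) (s n : ℤ) : ℝ :=
  ∑ j ∈ Ico 0 n, (d j * c (s - 1 - j) - c j * d (s - 1 - j))

theorem SS_zero (c d : ℤ → ℝ) (s : ℤ) : SS c d s 0 = 0 := by
  unfold SS
  simp

theorem SS_succ (c d : ℤ → ℝ) (s : ℤ) {n : ℤ} (hn : 0 ≤ n) :
    SS c d s (n + 1) = SS c d s n + (d n * c (s - 1 - n) - c n * d (s - 1 - n)) := by
  unfold SS
  have e : Ico 0 (n + 1) = insert n (Ico 0 n) := by
    ext j
    simp only [Finset.mem_Ico, Finset.mem_insert]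
    omega
  rw [e, Finset.sum_insert (by simp)]
  ring

/-- an antisymmetric sum over a symmetric window vanishes -/
theorem sum_anti (F : ℤ → ℝ) (p q : ℤ) (hF : ∀ j, F (p + q - 1 - j) = - F j) :
    ∑ j ∈ Ico p q, F j = 0 := by
  have h1 := sum_refl F p q
  have h2 : ∑ j ∈ Ico p q, F (p + q - 1 - j) = - ∑ j ∈ Ico p q, F j := by
    rw [← Finset.sum_neg_distrib]
    apply Finset.sum_congr rfl
    intro j _
    exact hF j
  linarith

theorem IL.SS0 (h : IL c d) {s n : ℤ} (hns : n ≤ s) : 0 ≤ SS c d s n := by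
  have h0 : ∀ j, j ≤ s - 1 - j → 0 ≤ d j * c (s - 1 - j) - c j * d (s - 1 - j) := by
    intro j hj
    have := h.cd hj
    linarith
  rcases le_or_gt (2 * (n - 1)) (s - 1) with h1 | h1
  · unfold SS
    apply Finset.sum_nonneg
    intro j hj
    simp only [Finset.mem_Ico] at hj
    exact h0 j (by omega)
  · have e : Ico 0 n = Ico 0 (s - n) ∪ Ico (s - n) n := by
      ext j
      simp only [Finset.mem_Ico, Finset.mem_union]
      omega
    have hdis : Disjoint (Ico 0 (s - n)) (Ico (s - n) n) := by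
      rw [Finset.disjoint_left]
      intro j hj
      simp only [Finset.mem_Ico] at hj ⊢
      omega
    unfold SS
    rw [e, Finset.sum_union hdis,
      sum_anti (fun j => d j * c (s - 1 - j) - c j * d (s - 1 - j)) (s - n) n (by
        intro j
        rw [show s - n + n - 1 - j = s - 1 - j by ring, show s - 1 - (s - 1 - j) = j by ring]
        ring), add_zero]
    apply Finset.sum_nonneg
    intro j hj
    simp only [Finset.mem_Ico] at hj
    exact h0 j (by omega)

theorem IL.SSs (s : ℤ) : SS c d s s = 0 := by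
  unfold SS
  apply sum_anti
  intro j
  rw [show 0 + s - 1 - j = s - 1 - j by ring, show s - 1 - (s - 1 - j) = j by ring]
  ring

theorem IL.SS1 (h : IL c d) {s n : ℤ} (hn : 0 ≤ n) (hns : n + 1 ≤ s) :
    SS c d s n ≤ c n * d (s - 1 - n) := by
  -- `c n d (s-1-n) - SS n = c 0 d (s-1) + ∑ (c (j+1) d (s-2-j) - d j c (s-1-j))`
  have key : ∀ m : ℤ, 0 ≤ m → c m * d (s - 1 - m) - SS c d s m
      = c 0 * d (s - 1) + ∑ j ∈ Ico 0 m, (c (j + 1) * d (s - 2 - j) - d j * c (s - 1 - j)) := by
    intro m hm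
    induction m, hm using Int.le_induction with
    | base =>
      rw [SS_zero]
      simp
    | succ k hk ih =>
      have e : Ico 0 (k + 1) = insert k (Ico 0 k) := by
        ext j
        simp only [Finset.mem_Ico, Finset.mem_insert]
        omega
      rw [SS_succ c d s hk, e, Finset.sum_insert (by simp)]
      rw [show s - 1 - (k + 1) = s - 2 - k by ring]
      linarith
  have h0 : ∀ j, j ≤ s - 2 - j → 0 ≤ c (j + 1) * d (s - 2 - j) - d j * c (s - 1 - j) := by
    intro j hj
    have := h.cd2 (show j + 1 ≤ s - 1 - j by omega)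
    rw [show s - 1 - j - 1 = s - 2 - j by ring] at this
    linarith
  have h1 : 0 ≤ ∑ j ∈ Ico 0 n, (c (j + 1) * d (s - 2 - j) - d j * c (s - 1 - j)) := by
    rcases le_or_gt (2 * (n - 1)) (s - 2) with h2 | h2
    · apply Finset.sum_nonneg
      intro j hj
      simp only [Finset.mem_Ico] at hj
      exact h0 j (by omega)
    · have e : Ico 0 n = Ico 0 (s - 1 - n) ∪ Ico (s - 1 - n) n := by
        ext j
        simp only [Finset.mem_Ico, Finset.mem_union]
        omega
      have hdis : Disjoint (Ico 0 (s - 1 - n)) (Ico (s - 1 - n) n) := by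
        rw [Finset.disjoint_left]
        intro j hj
        simp only [Finset.mem_Ico] at hj ⊢
        omega
      rw [e, Finset.sum_union hdis,
        sum_anti (fun j => c (j + 1) * d (s - 2 - j) - d j * c (s - 1 - j)) (s - 1 - n) n (by
          intro j
          rw [show s - 1 - n + n - 1 - j = s - 2 - j by ring,
            show s - 2 - (s - 2 - j) = j by ring, show s - 2 - j + 1 = s - 1 - j by ring,
            show s - 1 - (s - 2 - j) = j + 1 by ring]
          ring), add_zero]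
      apply Finset.sum_nonneg
      intro j hj
      simp only [Finset.mem_Ico] at hj
      exact h0 j (by omega)
  have h2 := key n hn
  have h3 : 0 ≤ c 0 * d (s - 1) := mul_nonneg (h.c0 _) (h.d0 _)
  linarith

theorem IL.transport0 (h : IL c d) {s : ℕ} {a b : ℕ → ℝ}
    (hb : ∀ m, 0 ≤ b m)
    (haz : ∀ m : ℕ, d m = 0 → a (m + 2) = 0)
    (l1 : ∀ m : ℕ, d m * a (m + 1) ≤ c m * b (m + 1))
    (l3 : ∀ m : ℕ, d m * a (m + 2) ≤ c (m + 1) * b (m + 1)) (n : ℕ) (hn : n ≤ s) :
    ∑ j ∈ range n, a (j + 1) * d (s - 1 - j)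
      ≤ ∑ j ∈ range n, b (j + 1) * c (s - 1 - j) - b n / d ((n : ℤ) - 1) * SS c d s n := by
  induction n with
  | zero => simp [SS_zero]
  | succ n ih =>
    have ih1 := ih (by omega)
    rw [Finset.sum_range_succ, Finset.sum_range_succ]
    have hT0 := h.SS0 (s := s) (n := n) (by omega)
    have hT1 := h.SS1 (s := s) (n := n) (by omega) (by omega)
    have hTs := SS_succ c d s (n := n) (by omega)
    have hT0' := h.SS0 (s := s) (n := n + 1) (by omega)
    have e1 : ((n + 1 : ℕ) : ℤ) - 1 = n := by push_cast; ring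
    have e2 : ((n + 1 : ℕ) : ℤ) = n + 1 := by push_cast; ring
    rw [e1, e2]
    set Q := c (n : ℤ) * d (s - 1 - n) with hQ
    set T := SS c d s n with hT
    set g := b (n + 1) / d (n : ℤ) with hg
    have k2 : a (n + 1) * T ≤ c n * (b n / d ((n : ℤ) - 1)) * T := by
      rcases Nat.eq_zero_or_pos n with h0 | h0
      · subst h0
        rw [hT]
        simp [SS_zero]
      · obtain ⟨m, rfl⟩ : ∃ m, n = m + 1 := ⟨n - 1, by omega⟩
        have e3 : ((m + 1 : ℕ) : ℤ) - 1 = m := by push_cast; ring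
        rw [e3]
        apply mul_le_mul_of_nonneg_right _ hT0
        rcases (h.d0 (m : ℤ)).lt_or_eq with hdm | hdm
        · have := l3 m
          have h6 : d (m : ℤ) * a (m + 1 + 1) ≤ d (m : ℤ) * (c ((m + 1 : ℕ) : ℤ) * (b (m + 1) / d (m : ℤ))) := by
            calc d (m : ℤ) * a (m + 1 + 1) ≤ c (m + 1) * b (m + 1) := this
              _ = c (m + 1) * (b (m + 1) / d (m : ℤ) * d (m : ℤ)) := by rw [div_mul_cancel₀ _ hdm.ne']
              _ = d (m : ℤ) * (c ((m + 1 : ℕ) : ℤ) * (b (m + 1) / d (m : ℤ))) := by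
                push_cast
                ring
          exact le_of_mul_le_mul_left h6 hdm
        · rw [haz m hdm.symm, ← hdm, div_zero, mul_zero]
    rcases (h.d0 (n : ℤ)).lt_or_eq with hdn | hdn
    · have hcn : 0 < c (n : ℤ) := h.cpos (by omega) hdn
      have hg1 : g * d (n : ℤ) = b (n + 1) := div_mul_cancel₀ _ hdn.ne'
      have k1 : a (n + 1) ≤ c n * g := by
        have := l1 n
        rw [← hg1] at this
        have h6 : d (n : ℤ) * a (n + 1) ≤ d (n : ℤ) * (c n * g) := by
          calc d (n : ℤ) * a (n + 1) ≤ c n * (g * d n) := this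
            _ = d (n : ℤ) * (c n * g) := by ring
        exact le_of_mul_le_mul_left h6 hdn
      have k3 : a (n + 1) * d (s - 1 - n) ≤ g * (Q - T) + b n / d ((n : ℤ) - 1) * T := by
        have h6 : c (n : ℤ) * (a (n + 1) * d (s - 1 - n))
            ≤ c (n : ℤ) * (g * (Q - T) + b n / d ((n : ℤ) - 1) * T) := by
          calc c (n : ℤ) * (a (n + 1) * d (s - 1 - n)) = a (n + 1) * (Q - T) + a (n + 1) * T := by
                rw [hQ]
                ring
            _ ≤ c n * g * (Q - T) + c n * (b n / d ((n : ℤ) - 1)) * T :=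
              add_le_add (mul_le_mul_of_nonneg_right k1 (by linarith)) k2
            _ = c (n : ℤ) * (g * (Q - T) + b n / d ((n : ℤ) - 1) * T) := by ring
        exact le_of_mul_le_mul_left h6 hcn
      have k4 : g * (Q - T) = b (n + 1) * c (s - 1 - n) - g * SS c d s (n + 1) := by
        rw [hTs, ← hg1]
        ring
      linarith
    · -- `d n = 0`
      have h7 : SS c d s (n + 1) = T - Q := by
        rw [hTs, ← hdn]
        ring
      have h8 : Q = T := by linarith
      have h9 : SS c d s (n + 1) = 0 := by rw [h7, h8, sub_self]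
      have hb1 : 0 ≤ b (n + 1) * c (s - 1 - n) := mul_nonneg (hb _) (h.c0 _)
      rw [h9, mul_zero, sub_zero]
      -- `a (n+1) d (s-1-n) ≤ g_n T`
      have h10 : a (n + 1) * d (s - 1 - n) ≤ b n / d ((n : ℤ) - 1) * T := by
        rcases Nat.eq_zero_or_pos n with h0 | h0
        · exfalso
          subst h0
          have := h.dp
          push_cast at hdn
          rw [← hdn] at this
          exact lt_irrefl _ this
        · obtain ⟨m, rfl⟩ : ∃ m, n = m + 1 := ⟨n - 1, by omega⟩
          have e3 : ((m + 1 : ℕ) : ℤ) - 1 = m := by push_cast; ring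
          rw [e3]
          rcases (h.d0 (m : ℤ)).lt_or_eq with hdm | hdm
          · have h11 : a (m + 1 + 1) ≤ c ((m + 1 : ℕ) : ℤ) * (b (m + 1) / d (m : ℤ)) := by
              have := l3 m
              have h6 : d (m : ℤ) * a (m + 1 + 1) ≤ d (m : ℤ) * (c ((m + 1 : ℕ) : ℤ) * (b (m + 1) / d (m : ℤ))) := by
                calc d (m : ℤ) * a (m + 1 + 1) ≤ c (m + 1) * b (m + 1) := this
                  _ = c (m + 1) * (b (m + 1) / d (m : ℤ) * d (m : ℤ)) := by rw [div_mul_cancel₀ _ hdm.ne']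
                  _ = d (m : ℤ) * (c ((m + 1 : ℕ) : ℤ) * (b (m + 1) / d (m : ℤ))) := by
                    push_cast
                    ring
              exact le_of_mul_le_mul_left h6 hdm
            rw [← h8, hQ]
            calc a (m + 1 + 1) * d (s - 1 - ((m + 1 : ℕ) : ℤ))
                ≤ c ((m + 1 : ℕ) : ℤ) * (b (m + 1) / d (m : ℤ)) * d (s - 1 - ((m + 1 : ℕ) : ℤ)) :=
                  mul_le_mul_of_nonneg_right h11 (h.d0 _)
              _ = _ := by ring
          · rw [haz m hdm.symm, ← hdm, div_zero]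
            simp
      linarith

/-- the coefficients are at least `b 0 c s - a 0 d s` -/
theorem IL.kap_ge (h : IL c d) {s : ℕ} {a b : ℕ → ℝ} (hb : ∀ m, 0 ≤ b m)
    (haz : ∀ m : ℕ, d m = 0 → a (m + 2) = 0)
    (l1 : ∀ m : ℕ, d m * a (m + 1) ≤ c m * b (m + 1))
    (l3 : ∀ m : ℕ, d m * a (m + 2) ≤ c (m + 1) * b (m + 1)) :
    b 0 * c s - a 0 * d s ≤ ∑ z ∈ range (s + 1), (b z * c (s - z) - a z * d (s - z)) := by
  have h1 := h.transport0 (s := s) hb haz l1 l3 s le_rfl
  rw [IL.SSs, mul_zero, sub_zero] at h1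
  rw [Finset.sum_range_succ']
  have h2 : ∑ j ∈ range s, (b (j + 1) * c (s - ((j + 1 : ℕ) : ℤ)) - a (j + 1) * d (s - ((j + 1 : ℕ) : ℤ)))
      = ∑ j ∈ range s, b (j + 1) * c (s - 1 - j) - ∑ j ∈ range s, a (j + 1) * d (s - 1 - j) := by
    rw [← Finset.sum_sub_distrib]
    apply Finset.sum_congr rfl
    intro z _
    have e4 : (s : ℤ) - ((z + 1 : ℕ) : ℤ) = s - 1 - z := by push_cast; ring
    rw [e4]
  rw [h2]
  push_cast
  rw [sub_zero]
  linarith

/-! ### `ℕ`-indexed sequences -/

/-- extension by zero -/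
noncomputable def ex (c : ℕ → ℝ) (i : ℤ) : ℝ := if 0 ≤ i then c i.toNat else 0

theorem ex_nat (c : ℕ → ℝ) (n : ℕ) : ex c n = c n := by
  unfold ex
  simp

theorem ex_neg (c : ℕ → ℝ) {i : ℤ} (hi : i < 0) : ex c i = 0 := by
  unfold ex
  rw [if_neg (by omega)]

theorem ex_sub (c : ℕ → ℝ) {m n : ℕ} (h : m ≤ n) : ex c (n - m) = c (n - m) := by
  rw [show (n : ℤ) - m = ((n - m : ℕ) : ℤ) by omega, ex_nat]

/-- the coefficients of `c b - d a` -/
noncomputable def kap (a b c d : ℕ → ℝ) (s : ℕ) : ℝ :=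
  ∑ z ∈ range (s + 1), (b z * c (s - z) - a z * d (s - z))

section
variable {a b c d : ℕ → ℝ}

theorem il_ex (hc : ∀ m, 0 ≤ c m) (hd : ∀ m, 0 ≤ d m) (hcz : ∀ m, c m = 0 → c (m + 1) = 0)
    (hdz : ∀ m, d m = 0 → d (m + 1) = 0) (hcp : 0 < c 0) (hdp : 0 < d 0)
    (i1 : ∀ m, c m * d (m + 1) ≤ c (m + 1) * d m)
    (i2 : ∀ m, c (m + 2) * d m ≤ c (m + 1) * d (m + 1)) : IL (ex c) (ex d) where
  c0 i := by
    unfold ex
    split_ifs
    · exact hc _
    · exact le_rfl
  d0 i := by
    unfold ex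
    split_ifs
    · exact hd _
    · exact le_rfl
  cn i hi := ex_neg c hi
  dn i hi := ex_neg d hi
  cp := by
    have := ex_nat c 0
    push_cast at this
    rw [this]
    exact hcp
  dp := by
    have := ex_nat d 0
    push_cast at this
    rw [this]
    exact hdp
  cz i hi h := by
    obtain ⟨n, rfl⟩ := Int.eq_ofNat_of_zero_le hi
    rw [ex_nat] at h
    have e : (n : ℤ) + 1 = ((n + 1 : ℕ) : ℤ) := by push_cast; ring
    rw [e, ex_nat]
    exact hcz n h
  dz i hi h := by
    obtain ⟨n, rfl⟩ := Int.eq_ofNat_of_zero_le hi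
    rw [ex_nat] at h
    have e : (n : ℤ) + 1 = ((n + 1 : ℕ) : ℤ) := by push_cast; ring
    rw [e, ex_nat]
    exact hdz n h
  il1 i hi := by
    obtain ⟨n, rfl⟩ := Int.eq_ofNat_of_zero_le hi
    have e : (n : ℤ) + 1 = ((n + 1 : ℕ) : ℤ) := by push_cast; ring
    rw [e, ex_nat, ex_nat, ex_nat, ex_nat]
    exact i1 n
  il2 i hi := by
    obtain ⟨n, rfl⟩ : ∃ n : ℕ, i = (n : ℤ) + 1 := ⟨(i - 1).toNat, by omega⟩
    have e : (n : ℤ) + 1 = ((n + 1 : ℕ) : ℤ) := by push_cast; ring
    have e2 : (n : ℤ) + 1 + 1 = ((n + 2 : ℕ) : ℤ) := by push_cast; ring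
    rw [e2, add_sub_cancel_right, e, ex_nat, ex_nat, ex_nat, ex_nat]
    exact i2 n

/-- **Lemma C**, one step -/
theorem lemC_step (ha : ∀ m, 0 ≤ a m) (hb : ∀ m, 0 ≤ b m) (hc : ∀ m, 0 ≤ c m) (hd : ∀ m, 0 ≤ d m)
    (hcz : ∀ m, c m = 0 → c (m + 1) = 0) (hdz : ∀ m, d m = 0 → d (m + 1) = 0)
    (i1 : ∀ m, c m * d (m + 1) ≤ c (m + 1) * d m)
    (i2 : ∀ m, c (m + 2) * d m ≤ c (m + 1) * d (m + 1))
    (l1 : ∀ m, d m * a (m + 1) ≤ c m * b (m + 1))
    (l3 : ∀ m, d m * a (m + 2) ≤ c (m + 1) * b (m + 1)) (s : ℕ) :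
    d (s + 1) * kap a b c d s ≤ d s * kap a b c d (s + 1) := by
  rcases (hd 0).lt_or_eq with hd0 | hd0
  swap
  · have hz : ∀ m, d m = 0 := by
      intro m
      induction m with
      | zero => exact hd0.symm
      | succ n ih => exact hdz n ih
    rw [hz, hz]
    simp
  rcases (hc 0).lt_or_eq with hc0 | hc0
  swap
  · have hz : ∀ m, c m = 0 := by
      intro m
      induction m with
      | zero => exact hc0.symm
      | succ n ih => exact hcz n ih
    -- `a (m+1) = 0` as long as `d m` is positive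
    rcases (hd s).lt_or_eq with h1 | h1
    swap
    · rw [← h1, hdz s h1.symm]
      simp
    have hda : ∀ m, m ≤ s → a (m + 1) = 0 := by
      intro m hm
      have h2 : 0 < d m := by
        rcases (hd m).lt_or_eq with h3 | h3
        · exact h3
        · exfalso
          have h4 : ∀ k, m ≤ k → d k = 0 := by
            intro k hk
            induction k, hk using Nat.le_induction with
            | base => exact h3.symm
            | succ n hn ih => exact hdz n ih
          rw [h4 s hm] at h1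
          exact lt_irrefl _ h1
      have h3 := l1 m
      rw [hz, zero_mul] at h3
      have h4 := ha (m + 1)
      nlinarith
    have hk : ∀ t, t ≤ s + 1 → kap a b c d t = - (a 0 * d t) := by
      intro t ht
      unfold kap
      rw [Finset.sum_range_succ']
      have h5 : ∑ z ∈ range t, (b (z + 1) * c (t - (z + 1)) - a (z + 1) * d (t - (z + 1))) = 0 := by
        apply Finset.sum_eq_zero
        intro z hzz
        rw [hz, hda z (by rw [Finset.mem_range] at hzz; omega)]
        ring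
      rw [h5, hz]
      simp
    rw [hk s (by omega), hk (s + 1) le_rfl]
    apply le_of_eq
    ring
  have h := il_ex hc hd hcz hdz hc0 hd0 i1 i2
  have e : ∀ n : ℕ, (n : ℤ) + 1 = ((n + 1 : ℕ) : ℤ) := by
    intro n
    push_cast
    ring
  have h2 := h.step (s := s) (a := a) hb (by
      intro m
      rw [ex_nat, ex_nat]
      exact l1 m) (by
      intro m
      rw [e, ex_nat, ex_nat]
      exact l3 m)
  rw [e, ex_nat, ex_nat] at h2
  have h3 : ∀ t : ℕ, ∑ z ∈ range (t + 1), (b z * ex c (t - z) - a z * ex d (t - z))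
      = kap a b c d t := by
    intro t
    unfold kap
    apply Finset.sum_congr rfl
    intro z hz
    rw [Finset.mem_range] at hz
    rw [ex_sub c (by omega), ex_sub d (by omega)]
  have h4 := h3 s
  have h5 := h3 (s + 1)
  rw [h4] at h2
  rw [show s + 2 = s + 1 + 1 by ring, h5] at h2
  exact h2

/-- the coefficients of `c b - d a` at a place where `d` vanishes -/
theorem kap_nonneg (ha : ∀ m, 0 ≤ a m) (hb : ∀ m, 0 ≤ b m) (hc : ∀ m, 0 ≤ c m) (hd : ∀ m, 0 ≤ d m)
    (hcz : ∀ m, c m = 0 → c (m + 1) = 0) (hdz : ∀ m, d m = 0 → d (m + 1) = 0)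
    (haz : ∀ m, d m = 0 → a (m + 2) = 0)
    (i1 : ∀ m, c m * d (m + 1) ≤ c (m + 1) * d m)
    (i2 : ∀ m, c (m + 2) * d m ≤ c (m + 1) * d (m + 1))
    (l1 : ∀ m, d m * a (m + 1) ≤ c m * b (m + 1))
    (l3 : ∀ m, d m * a (m + 2) ≤ c (m + 1) * b (m + 1)) (s : ℕ) :
    b 0 * c s - a 0 * d s ≤ kap a b c d s := by
  have e : ∀ n : ℕ, (n : ℤ) + 1 = ((n + 1 : ℕ) : ℤ) := by
    intro n
    push_cast
    ring
  rcases (hd 0).lt_or_eq with hd0 | hd0
  swap
  · have hz : ∀ m, d m = 0 := by
      intro m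
      induction m with
      | zero => exact hd0.symm
      | succ n ih => exact hdz n ih
    unfold kap
    rw [Finset.sum_range_succ']
    have h5 : 0 ≤ ∑ z ∈ range s, (b (z + 1) * c (s - (z + 1)) - a (z + 1) * d (s - (z + 1))) := by
      apply Finset.sum_nonneg
      intro z _
      rw [hz, mul_zero, sub_zero]
      exact mul_nonneg (hb _) (hc _)
    simp only [Nat.sub_zero]
    linarith
  rcases (hc 0).lt_or_eq with hc0 | hc0
  swap
  · have hz : ∀ m, c m = 0 := by
      intro m
      induction m with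
      | zero => exact hc0.symm
      | succ n ih => exact hcz n ih
    have hda : ∀ m, a (m + 1) = 0 := by
      intro m
      rcases (hd m).lt_or_eq with h2 | h2
      · have h3 := l1 m
        rw [hz, zero_mul] at h3
        have h4 := ha (m + 1)
        nlinarith
      · rcases Nat.eq_zero_or_pos m with h0 | h0
        · subst h0
          exact absurd h2 hd0.ne
        · obtain ⟨k, rfl⟩ : ∃ k, m = k + 1 := ⟨m - 1, by omega⟩
          rcases (hd k).lt_or_eq with h5 | h5
          · have h3 := l3 k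
            rw [hz, zero_mul] at h3
            have h4 := ha (k + 2)
            nlinarith
          · exact haz k h5.symm
    unfold kap
    rw [Finset.sum_range_succ']
    have h5 : ∑ z ∈ range s, (b (z + 1) * c (s - (z + 1)) - a (z + 1) * d (s - (z + 1))) = 0 := by
      apply Finset.sum_eq_zero
      intro z hzz
      rw [hz, hda z]
      ring
    rw [h5, zero_add, Nat.sub_zero]
  have h := il_ex hc hd hcz hdz hc0 hd0 i1 i2
  have h2 := h.kap_ge (s := s) hb (a := a) (by
      intro m hm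
      rw [ex_nat] at hm
      exact haz m hm) (by
      intro m
      rw [ex_nat, ex_nat]
      exact l1 m) (by
      intro m
      rw [e, ex_nat, ex_nat]
      exact l3 m)
  rw [ex_nat, ex_nat] at h2
  have h3 : ∑ z ∈ range (s + 1), (b z * ex c (s - z) - a z * ex d (s - z)) = kap a b c d s := by
    unfold kap
    apply Finset.sum_congr rfl
    intro z hz
    rw [Finset.mem_range] at hz
    rw [ex_sub c (by omega), ex_sub d (by omega)]
  rw [h3] at h2
  exact h2

/-- **Lemma C** -/
theorem lemC (ha : ∀ m, 0 ≤ a m) (hb : ∀ m, 0 ≤ b m) (hc : ∀ m, 0 ≤ c m) (hd : ∀ m, 0 ≤ d m)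
    (hcz : ∀ m, c m = 0 → c (m + 1) = 0) (hdz : ∀ m, d m = 0 → d (m + 1) = 0)
    (haz : ∀ m, d m = 0 → a (m + 2) = 0)
    (i1 : ∀ m, c m * d (m + 1) ≤ c (m + 1) * d m)
    (i2 : ∀ m, c (m + 2) * d m ≤ c (m + 1) * d (m + 1))
    (l1 : ∀ m, d m * a (m + 1) ≤ c m * b (m + 1))
    (l3 : ∀ m, d m * a (m + 2) ≤ c (m + 1) * b (m + 1)) {x s : ℕ} (hxs : x ≤ s) :
    d s * kap a b c d x ≤ d x * kap a b c d s := by
  induction s, hxs using Nat.le_induction with
  | base => exact le_rfl
  | succ n hn ih =>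
    have h1 := lemC_step ha hb hc hd hcz hdz i1 i2 l1 l3 n
    rcases (hd n).lt_or_eq with h2 | h2
    · have h3 : d n * (d (n + 1) * kap a b c d x) ≤ d n * (d x * kap a b c d (n + 1)) := by
        calc d n * (d (n + 1) * kap a b c d x) = d (n + 1) * (d n * kap a b c d x) := by ring
          _ ≤ d (n + 1) * (d x * kap a b c d n) := mul_le_mul_of_nonneg_left ih (hd _)
          _ = d x * (d (n + 1) * kap a b c d n) := by ring
          _ ≤ d x * (d n * kap a b c d (n + 1)) := mul_le_mul_of_nonneg_left h1 (hd _)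
          _ = d n * (d x * kap a b c d (n + 1)) := by ring
      exact le_of_mul_le_mul_left h3 h2
    · have h3 := kap_nonneg ha hb hc hd hcz hdz haz i1 i2 l1 l3 (n + 1)
      have h4 : d (n + 1) = 0 := hdz n h2.symm
      rw [h4] at h3 ⊢
      rw [zero_mul]
      apply mul_nonneg (hd _)
      have h5 : 0 ≤ b 0 * c (n + 1) := mul_nonneg (hb _) (hc _)
      linarith

/-- all coefficients of `c b - d a` are nonnegative -/
theorem kap_nonneg' (ha : ∀ m, 0 ≤ a m) (hb : ∀ m, 0 ≤ b m) (hc : ∀ m, 0 ≤ c m) (hd : ∀ m, 0 ≤ d m)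
    (hcz : ∀ m, c m = 0 → c (m + 1) = 0) (hdz : ∀ m, d m = 0 → d (m + 1) = 0)
    (haz : ∀ m, d m = 0 → a (m + 2) = 0)
    (i1 : ∀ m, c m * d (m + 1) ≤ c (m + 1) * d m)
    (i2 : ∀ m, c (m + 2) * d m ≤ c (m + 1) * d (m + 1))
    (l0 : d 0 * a 0 ≤ c 0 * b 0)
    (l1 : ∀ m, d m * a (m + 1) ≤ c m * b (m + 1))
    (l3 : ∀ m, d m * a (m + 2) ≤ c (m + 1) * b (m + 1)) (s : ℕ) :
    0 ≤ kap a b c d s := by
  rcases (hd s).lt_or_eq with h1 | h1
  · have hd0 : 0 < d 0 := by
      rcases (hd 0).lt_or_eq with h2 | h2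
      · exact h2
      · exfalso
        have hz : ∀ m, d m = 0 := by
          intro m
          induction m with
          | zero => exact h2.symm
          | succ n ih => exact hdz n ih
        rw [hz] at h1
        exact lt_irrefl _ h1
    have h2 := lemC ha hb hc hd hcz hdz haz i1 i2 l1 l3 (Nat.zero_le s)
    have h3 : 0 ≤ kap a b c d 0 := by
      unfold kap
      simp only [zero_add, Finset.sum_range_one, Nat.sub_zero]
      linarith [mul_comm (d 0) (a 0), mul_comm (c 0) (b 0)]
    have h4 : 0 ≤ d 0 * kap a b c d s := le_trans (mul_nonneg (hd _) h3) h2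
    exact nonneg_of_mul_nonneg_right h4 hd0
  · have h3 := kap_nonneg ha hb hc hd hcz hdz haz i1 i2 l1 l3 s
    rw [← h1] at h3
    have h5 : 0 ≤ b 0 * c s := mul_nonneg (hb _) (hc _)
    linarith

end

end LemC
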